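import Pool.Agent.Helper1.RK.StA

/-!
# Project RK (MP_de00bc_nt), module LCD: local derivation calculus
-/

set_option autoImplicit false

namespace Pool.Agent.Helper64.RK

open Pool.Agent.Helper1.RK Polynomial

/-- the derivation formula holds for `g` -/
private structure Pr {L : Type} [Field L] (p : L) (d : Derivation ℤ L L) (V : RatFunc L)
    (D Dt : Derivation ℤ (RatFunc L) (RatFunc L)) (g : RatFunc L) : Prop where
  r : Reg p g
  rD : Reg p (D g)
  rT : Reg p (Dt g)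
  e : ev p (D g) = d (ev p g) + (ev p V - d p) * ev p (Dt g)

private theorem lcd_pr (h2 : StREG) {L : Type} [Field L] (p : L) {d : Derivation ℤ L L}
    {V : RatFunc L} {D Dt : Derivation ℤ (RatFunc L) (RatFunc L)} (hD : Over d V D)
    (hDt : Over 0 1 Dt) (hV : Reg p V) : ∀ g, Reg p g → Pr p d V D Dt g := by
  obtain ⟨q1, -, -, -, q5, q6, q7, -, q9⟩ := h2 L p
  have z0 := q5 0
  rw [map_zero] at z0
  have z1 := q5 1
  rw [map_one] at z1
  have hT0 : ∀ a : L, Dt (RatFunc.C a) = 0 := by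
    intro a
    rw [hDt.1, Derivation.coe_zero, Pi.zero_apply, map_zero]
  have pC : ∀ a : L, Pr p d V D Dt (RatFunc.C a) := by
    intro a
    refine ⟨(q5 a).1, ?_, ?_, ?_⟩
    · rw [hD.1]
      exact (q5 _).1
    · rw [hT0]
      exact z0.1
    · rw [hD.1, hT0, (q5 _).2, (q5 _).2, z0.2, mul_zero, add_zero]
  have pX : Pr p d V D Dt RatFunc.X := by
    refine ⟨q6.1, ?_, ?_, ?_⟩
    · rw [hD.2]
      exact hV
    · rw [hDt.2]
      exact z1.1
    · rw [hD.2, hDt.2, q6.2, z1.2]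
      ring
  have pA : ∀ g h, Pr p d V D Dt g → Pr p d V D Dt h → Pr p d V D Dt (g + h) := by
    intro g h hg hh
    obtain ⟨a1, a2, -⟩ := q7 g h hg.r hh.r
    obtain ⟨b1, b2, -⟩ := q7 _ _ hg.rD hh.rD
    obtain ⟨c1, c2, -⟩ := q7 _ _ hg.rT hh.rT
    refine ⟨a1, ?_, ?_, ?_⟩
    · rw [map_add]
      exact b1
    · rw [map_add]
      exact c1
    · rw [map_add, map_add, b2, c2, a2, map_add, hg.e, hh.e]
      ring
  have pM : ∀ g h, Pr p d V D Dt g → Pr p d V D Dt h → Pr p d V D Dt (g * h) := by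
    intro g h hg hh
    obtain ⟨-, -, a1, a2, -⟩ := q7 g h hg.r hh.r
    obtain ⟨-, -, b1, b2, -⟩ := q7 _ _ hg.r hh.rD
    obtain ⟨-, -, b3, b4, -⟩ := q7 _ _ hh.r hg.rD
    obtain ⟨-, -, c1, c2, -⟩ := q7 _ _ hg.r hh.rT
    obtain ⟨-, -, c3, c4, -⟩ := q7 _ _ hh.r hg.rT
    obtain ⟨s1, s2, -⟩ := q7 _ _ b1 b3
    obtain ⟨t1, t2, -⟩ := q7 _ _ c1 c3
    refine ⟨a1, ?_, ?_, ?_⟩
    · rw [Derivation.leibniz, smul_eq_mul, smul_eq_mul]
      exact s1
    · rw [Derivation.leibniz, smul_eq_mul, smul_eq_mul]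
      exact t1
    · rw [Derivation.leibniz, Derivation.leibniz, smul_eq_mul, smul_eq_mul, smul_eq_mul,
        smul_eq_mul, s2, t2, a2, b2, b4, c2, c4, Derivation.leibniz, smul_eq_mul, smul_eq_mul,
        hg.e, hh.e]
      ring
  have pI : ∀ g, Pr p d V D Dt g → ev p g ≠ 0 → Pr p d V D Dt g⁻¹ := by
    intro g hg h0
    obtain ⟨a1, a2⟩ := q9 g hg.r h0
    obtain ⟨-, -, i1, i2, -⟩ := q7 _ _ a1 a1
    obtain ⟨-, -, b1, b2, -⟩ := q7 _ _ i1 hg.rD
    obtain ⟨-, -, c1, c2, -⟩ := q7 _ _ i1 hg.rT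
    obtain ⟨-, -, -, -, n1, n2⟩ := q7 _ _ z0.1 b1
    obtain ⟨-, -, -, -, m1, m2⟩ := q7 _ _ z0.1 c1
    have eD : D g⁻¹ = 0 - g⁻¹ * g⁻¹ * D g := by
      rw [Derivation.leibniz_inv, smul_eq_mul]
      ring
    have eT : Dt g⁻¹ = 0 - g⁻¹ * g⁻¹ * Dt g := by
      rw [Derivation.leibniz_inv, smul_eq_mul]
      ring
    refine ⟨a1, ?_, ?_, ?_⟩
    · rw [eD]
      exact n1
    · rw [eT]
      exact m1
    · rw [eD, eT, n2, m2, b2, c2, i2, a2, z0.2, Derivation.leibniz_inv, smul_eq_mul, hg.e]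
      ring
  have pP : ∀ P : L[X], Pr p d V D Dt (algebraMap L[X] (RatFunc L) P) := by
    intro P
    induction P using Polynomial.induction_on' with
    | add P Q hP hQ =>
      rw [map_add]
      exact pA _ _ hP hQ
    | monomial n a =>
      have h : ∀ n : ℕ, Pr p d V D Dt (RatFunc.C a * RatFunc.X ^ n) := by
        intro n
        induction n with
        | zero =>
          rw [pow_zero, mul_one]
          exact pC a
        | succ n ih =>
          rw [pow_succ, ← mul_assoc]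
          exact pM _ _ ih pX
      have h3 : algebraMap L[X] (RatFunc L) (monomial n a) = RatFunc.C a * RatFunc.X ^ n := by
        rw [← Polynomial.C_mul_X_pow_eq_monomial, map_mul, map_pow, RatFunc.algebraMap_C,
          RatFunc.algebraMap_X]
      rw [h3]
      exact h n
  intro g hg
  have h3 : ev p (algebraMap L[X] (RatFunc L) g.denom) ≠ 0 := by
    have h4 := (q1 g.denom 1 (by rw [Polynomial.eval_one]; exact one_ne_zero)).2
    rw [map_one, div_one, Polynomial.eval_one, div_one] at h4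
    rw [h4]
    exact hg
  have h4 := pM _ _ (pP g.num) (pI _ (pP g.denom) h3)
  rw [← div_eq_mul_inv, RatFunc.num_div_denom] at h4
  exact h4

/-- the derivative of `v ^ n * h` -/
private theorem lcd_dec (h1 : StORD) (h2 : StREG) {L : Type} [Field L] (p : L)
    {d : Derivation ℤ L L} {V : RatFunc L} {D Dt : Derivation ℤ (RatFunc L) (RatFunc L)}
    (hD : Over d V D) (hDt : Over 0 1 Dt) (hV : Reg p V) (g : RatFunc L) (hg : g ≠ 0) :
    ∃ h K : RatFunc L, ev p h ≠ 0 ∧ Reg p K ∧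
      ev p K = (ord p g : L) * (ev p V - d p) * ev p h ∧
      D g = (RatFunc.X - RatFunc.C p) ^ (ord p g - 1) * K ∧
      ∀ n : ℤ, ord p ((RatFunc.X - RatFunc.C p : RatFunc L) ^ n) = n := by
  obtain ⟨-, o2, o3, -, o5, -, -, -, o9, -⟩ := h1 L p
  obtain ⟨-, r2, -, r4, r5, r6, r7, -, -⟩ := h2 L p
  have hv0 : (RatFunc.X - RatFunc.C p : RatFunc L) ≠ 0 := by
    intro h
    rw [h] at o9
    have h3 := o5 0 1
    have h4 := o5 0 2
    rw [o9] at h3 h4
    simp at h3 h4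
    rw [o9] at h4
    norm_num at h4
  have oz : ∀ n : ℤ, ord p ((RatFunc.X - RatFunc.C p : RatFunc L) ^ n) = n := by
    intro n
    rcases n with n | n
    · rw [Int.ofNat_eq_natCast, zpow_natCast, o5, o9, mul_one]
    · rw [zpow_negSucc, o3, o5, o9, mul_one]
      rfl
  obtain ⟨v, hv⟩ : ∃ v : RatFunc L, v = RatFunc.X - RatFunc.C p := ⟨_, rfl⟩
  rw [← hv] at hv0 oz ⊢
  obtain ⟨n, hn⟩ : ∃ n, n = ord p g := ⟨_, rfl⟩
  rw [← hn]
  obtain ⟨h, hh⟩ : ∃ h, h = v ^ (-n) * g := ⟨_, rfl⟩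
  have hh0 : h ≠ 0 := by
    rw [hh]
    exact mul_ne_zero (zpow_ne_zero _ hv0) hg
  have hoh : ord p h = 0 := by
    rw [hh, o2 _ _ (zpow_ne_zero _ hv0) hg, oz, hn]
    ring
  have hrh : Reg p h := (r2 h).2 (Or.inr hoh.ge)
  have heh : ev p h ≠ 0 := by
    intro h3
    rcases (r4 h hrh).1 h3 with h4 | h4
    · exact hh0 h4
    · omega
  have hgv : g = v ^ n * h := by
    rw [hh, ← mul_assoc, ← zpow_add₀ hv0, add_neg_cancel, zpow_zero, one_mul]
  have hP := lcd_pr h2 p hD hDt hV h hrh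
  have hDv : D v = V - RatFunc.C (d p) := by
    rw [hv, map_sub, hD.2, hD.1]
  have hvr : Reg p v ∧ ev p v = 0 := by
    obtain ⟨-, -, -, -, a1, a2⟩ := r7 _ _ r6.1 (r5 p).1
    rw [hv]
    refine ⟨a1, ?_⟩
    rw [a2, r6.2, (r5 p).2, sub_self]
  have hDvr : Reg p (V - RatFunc.C (d p)) ∧ ev p (V - RatFunc.C (d p)) = ev p V - d p := by
    obtain ⟨-, -, -, -, a1, a2⟩ := r7 _ _ hV (r5 (d p)).1
    refine ⟨a1, ?_⟩
    rw [a2, (r5 (d p)).2]
  obtain ⟨-, -, x1, x2, -⟩ := r7 _ _ (r5 (n : L)).1 hDvr.1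
  obtain ⟨-, -, y1, y2, -⟩ := r7 _ _ x1 hrh
  obtain ⟨-, -, w1, w2, -⟩ := r7 _ _ hvr.1 hP.rD
  obtain ⟨k1, k2, -⟩ := r7 _ _ y1 w1
  refine ⟨h, RatFunc.C (n : L) * (V - RatFunc.C (d p)) * h + v * D h, heh, k1, ?_, ?_, oz⟩
  · rw [k2, y2, x2, w2, hvr.2, hDvr.2, (r5 (n : L)).2]
    ring
  · have e1 : D g = v ^ n * D h + h * D (v ^ n) := by
      conv_lhs => rw [hgv]
      rw [Derivation.leibniz, smul_eq_mul, smul_eq_mul]
    have e2 : D (v ^ n) = (n : RatFunc L) * v ^ (n - 1) * D v := by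
      rw [Derivation.leibniz_zpow]
      rw [zsmul_eq_mul, smul_eq_mul]
      ring
    have e3 : v ^ n = v ^ (n - 1) * v := by
      rw [← zpow_add_one₀ hv0]
      congr 1
      ring
    have e4 : RatFunc.C (n : L) = (n : RatFunc L) := map_intCast _ n
    rw [e1, e2, hDv, e3, e4]
    ring

/-- LCD -/
theorem pLCD (h1 : StORD) (h2 : StREG) (h3 : StDER) : StLCD := by
  intro L _ _ p Dt hDt
  have _ := h3
  obtain ⟨-, o2, -, -, -, -, -, -, o9, -⟩ := h1 L p
  obtain ⟨-, r2, -, r4, r5, -, r7, -, -⟩ := h2 L p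
  have hv0 : ∀ n : ℤ, (∀ n : ℤ, ord p ((RatFunc.X - RatFunc.C p : RatFunc L) ^ n) = n) →
      (RatFunc.X - RatFunc.C p : RatFunc L) ^ n ≠ 0 := by
    intro n hz
    apply zpow_ne_zero
    intro h
    have a1 := hz 1
    have a2 := hz 2
    rw [h, zpow_one] at a1
    rw [h, zero_zpow _ (by norm_num), a1] at a2
    norm_num at a2
  have hB : ∀ g : RatFunc L, g ≠ 0 → ord p g ≠ 0 → Dt g ≠ 0 ∧ ord p (Dt g) = ord p g - 1 := by
    intro g hg hog
    have z1 := r5 1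
    rw [map_one] at z1
    obtain ⟨h, K, e1, e2, e3, e4, e5⟩ := lcd_dec h1 h2 p hDt hDt z1.1 g hg
    rw [z1.2, Derivation.coe_zero, Pi.zero_apply, sub_zero, mul_one] at e3
    have hK : ev p K ≠ 0 := by
      rw [e3]
      exact mul_ne_zero (Int.cast_ne_zero.2 hog) e1
    have hK2 : ¬ (K = 0 ∨ 1 ≤ ord p K) := fun h => hK ((r4 K e2).2 h)
    rw [not_or] at hK2
    have hK3 : 0 ≤ ord p K := by
      rcases (r2 K).1 e2 with h | h
      · exact absurd h hK2.1
      · exact h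
    have hv := hv0 (ord p g - 1) e5
    rw [e4]
    refine ⟨mul_ne_zero hv hK2.1, ?_⟩
    rw [o2 _ _ hv hK2.1, e5]
    omega
  refine ⟨?_, hB, ?_⟩
  · intro d V D hD hV
    refine ⟨?_, ?_, ?_⟩
    · intro g hg
      have h := lcd_pr h2 p hD hDt hV g hg
      exact ⟨h.rD, h.e⟩
    · intro g hg hDg
      obtain ⟨h, K, e1, e2, e3, e4, e5⟩ := lcd_dec h1 h2 p hD hDt hV g hg
      have hv := hv0 (ord p g - 1) e5
      have hK0 : K ≠ 0 := by
        rintro rfl
        rw [mul_zero] at e4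
        exact hDg e4
      rw [e4, o2 _ _ hv hK0, e5]
      rcases (r2 K).1 e2 with h | h
      · exact absurd h hK0
      · omega
    · intro hVd g hg hDg
      obtain ⟨h, K, e1, e2, e3, e4, e5⟩ := lcd_dec h1 h2 p hD hDt hV g hg
      have hv := hv0 (ord p g - 1) e5
      have hK0 : K ≠ 0 := by
        rintro rfl
        rw [mul_zero] at e4
        exact hDg e4
      rw [hVd, sub_self, mul_zero, zero_mul] at e3
      rw [e4, o2 _ _ hv hK0, e5]
      rcases (r4 K e2).1 e3 with h | h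
      · exact absurd h hK0
      · omega
  · intro g hg hr
    obtain ⟨-, -, -, -, a1, a2⟩ := r7 _ _ hr (r5 (ev p g)).1
    rw [(r5 (ev p g)).2, sub_self] at a2
    have hne : g - RatFunc.C (ev p g) ≠ 0 := fun h => hg ⟨_, sub_eq_zero.1 h⟩
    have ho : 1 ≤ ord p (g - RatFunc.C (ev p g)) := by
      rcases (r4 _ a1).1 a2 with h | h
      · exact absurd h hne
      · exact h
    refine ⟨ho, ?_⟩
    have h4 := (hB _ hne (by omega)).2
    rw [map_sub, hDt.1, Derivation.coe_zero, Pi.zero_apply, map_zero, sub_zero] at h4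
    exact h4

end Pool.Agent.Helper64.RK
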