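import Pool.Agent.Helper1.RK.StE

/-!
# Project RK (MP_de00bc_nt), module UMN: the main theorem for three curves
-/

set_option autoImplicit false

namespace Pool.Agent.Helper64.RK

open Pool.Agent.Helper1.RK

private theorem kill {K : Type} [Field K] (d : Derivation ℤ K K) (x a b : K) (hx : d x = 0)
    (ha : d a = 0) (hb : d b = 0) : d (x ^ 3 + a * x + b) = 0 := by
  rw [map_add, map_add, Derivation.leibniz, Derivation.leibniz_pow, hx, ha, hb]
  simp

theorem pUMN (h1 : StALP) (h2 : StBET) (h3 : StSEP) : StUMN := by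
  classical
  intro F K _ _ _ _ I X pd deg lc J rho a b w hVF hS l
  have hex : ∃ i j : Fin 3, ∃ z z' : I, (∀ k, z ∉ J k) ∧ (∀ k, z' ∉ J k) ∧
      pd z (w i) * pd z' (w j) ≠ pd z' (w i) * pd z (w j) := by
    by_contra hno
    apply h2 F K I X pd deg lc J rho a b w hVF hS
    intro i j z z' hz hz'
    by_contra hne
    exact hno ⟨i, j, z, z', hz, hz', hne⟩
  obtain ⟨i, j, z, z', hz, hz', hne⟩ := hex
  have hij : i ≠ j := by
    rintro rfl
    exact hne (mul_comm _ _)
  have hA := h1 F K I X pd deg lc J rho a b w hVF hS i j hij z z' (hz i) (hz j) (hz' i) (hz' j) hne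
  have hk : ∀ m y, y ∉ J m → y ≠ rho m →
      pd y ((X (rho m) ^ 3 + a m * X (rho m) + b m) * (w m ^ 3 + a m * w m + b m)) = 0 := by
    intro m y hy hym
    have e1 := kill (pd y) (X (rho m)) (a m) (b m) (hVF.pd_ne y (rho m) hym) (hS.pda m y hy)
      (hS.pdb m y hy)
    have e2 := kill (pd y) (w m) (a m) (b m) (hA m y hy hym) (hS.pda m y hy) (hS.pdb m y hy)
    rw [Derivation.leibniz, e1, e2, smul_zero, smul_zero, add_zero]
  have hn : ∀ m, (X (rho m) ^ 3 + a m * X (rho m) + b m) * (w m ^ 3 + a m * w m + b m) ≠ 0 := by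
    intro m
    exact mul_ne_zero (hVF.cub (rho m) (a m) (b m) (hS.pda m _ (hS.rhoJ m m))
      (hS.pdb m _ (hS.rhoJ m m))).1 (hS.ne m)
  obtain ⟨l', hl'⟩ : ∃ l' : Fin 3, l' ≠ l := by
    revert l
    decide
  refine h3 F K I X pd deg lc hVF (insert (rho l') (J l')) _ _ (hn l) (hn l') ?_ ?_
    (hS.sq l l' hl'.symm)
  · intro y hy
    rcases Finset.mem_insert.1 hy with rfl | hy
    · exact hk l _ (hS.rhoJ l' l) fun h => hS.rho_inj l' l hl' h
    · exact hk l _ (hS.disj l' l hl' y hy) fun h => hS.rhoJ l l' (h ▸ hy)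
  · intro y hy
    rw [Finset.mem_insert, not_or] at hy
    exact hk l' y hy.2 hy.1

end Pool.Agent.Helper64.RK
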