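import Pool.Agent.Helper1.RK.StF

/-!
# Project RK (MP_de00bc_nt), module GMQ: the multiplier is an integer
-/

set_option autoImplicit false

namespace Pool.Agent.Helper64.RK

open Pool.Agent.Helper1.RK Polynomial

section

variable {L : Type} [Field L]

/-- `g` is a quotient `P / Q` with `Q` monic, `deg P ≤ deg Q + n`, and `a` is the coefficient of
`P` in degree `deg Q + n` -/
private def AI (n : ℕ) (a : L) (g : RatFunc L) : Prop :=
  ∃ P Q : L[X], Q.Monic ∧ g * algebraMap L[X] (RatFunc L) Q = algebraMap L[X] (RatFunc L) P ∧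
    P.natDegree ≤ Q.natDegree + n ∧ P.coeff (Q.natDegree + n) = a

private theorem am_ne {Q : L[X]} (hQ : Q.Monic) : algebraMap L[X] (RatFunc L) Q ≠ 0 := by
  intro h
  exact hQ.ne_zero ((map_eq_zero_iff _ (RatFunc.algebraMap_injective L)).1 h)

private theorem ai_add {n : ℕ} {a b : L} {g h : RatFunc L} (hg : AI n a g) (hh : AI n b h) :
    AI n (a + b) (g + h) := by
  obtain ⟨P, Q, q1, q2, q3, q4⟩ := hg
  obtain ⟨R, S, s1, s2, s3, s4⟩ := hh
  have e1 : (P * S).natDegree ≤ (Q.natDegree + n) + S.natDegree :=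
    (natDegree_mul_le).trans (Nat.add_le_add_right q3 _)
  have e2 : (R * Q).natDegree ≤ (S.natDegree + n) + Q.natDegree :=
    (natDegree_mul_le).trans (Nat.add_le_add_right s3 _)
  have d : (Q * S).natDegree = Q.natDegree + S.natDegree := q1.natDegree_mul s1
  refine ⟨P * S + R * Q, Q * S, q1.mul s1, ?_, ?_, ?_⟩
  · rw [map_add, map_mul, map_mul, map_mul, ← q2, ← s2]
    ring
  · refine (natDegree_add_le _ _).trans (max_le ?_ ?_)
    · rw [d]
      omega
    · rw [d]
      omega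
  · rw [coeff_add, d]
    have c1 : (P * S).coeff (Q.natDegree + n + S.natDegree) = a := by
      rw [coeff_mul_add_eq_of_natDegree_le q3 le_rfl, q4, s1.coeff_natDegree, mul_one]
    have c2 : (R * Q).coeff (S.natDegree + n + Q.natDegree) = b := by
      rw [coeff_mul_add_eq_of_natDegree_le s3 le_rfl, s4, q1.coeff_natDegree, mul_one]
    have i1 : Q.natDegree + S.natDegree + n = Q.natDegree + n + S.natDegree := by omega
    have i2 : Q.natDegree + S.natDegree + n = S.natDegree + n + Q.natDegree := by omega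
    rw [← c1, ← c2, ← i1, ← i2]

private theorem ai_mul {n m : ℕ} {a b : L} {g h : RatFunc L} (hg : AI n a g) (hh : AI m b h) :
    AI (n + m) (a * b) (g * h) := by
  obtain ⟨P, Q, q1, q2, q3, q4⟩ := hg
  obtain ⟨R, S, s1, s2, s3, s4⟩ := hh
  have e1 : (P * R).natDegree ≤ (Q.natDegree + n) + (S.natDegree + m) :=
    (natDegree_mul_le).trans (Nat.add_le_add q3 s3)
  have d : (Q * S).natDegree = Q.natDegree + S.natDegree := q1.natDegree_mul s1
  refine ⟨P * R, Q * S, q1.mul s1, ?_, ?_, ?_⟩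
  · rw [map_mul, map_mul, ← q2, ← s2]
    ring
  · rw [d]
    omega
  · have i1 : Q.natDegree + S.natDegree + (n + m) = Q.natDegree + n + (S.natDegree + m) := by omega
    rw [d, i1, coeff_mul_add_eq_of_natDegree_le q3 s3, q4, s4]

private theorem ai_pol {n : ℕ} {P : L[X]} (h : P.natDegree ≤ n) :
    AI n (P.coeff n) (algebraMap L[X] (RatFunc L) P) := by
  refine ⟨P, 1, monic_one, ?_, ?_, ?_⟩
  · rw [map_one, mul_one]
  · rw [natDegree_one]
    omega
  · rw [natDegree_one, zero_add]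

private theorem ai_C (a : L) : AI 0 a (RatFunc.C a) := by
  have h : (C a : L[X]).natDegree ≤ 0 := (natDegree_C a).le
  have := ai_pol h
  rwa [coeff_C_zero, RatFunc.algebraMap_C] at this

private theorem ai_X : AI 1 (1 : L) RatFunc.X := by
  have h : (X : L[X]).natDegree ≤ 1 := natDegree_X_le
  have := ai_pol h
  rwa [coeff_X_one, RatFunc.algebraMap_X] at this

private theorem ai_sub {n : ℕ} {a b : L} {g h : RatFunc L} (hg : AI n a g) (hh : AI n b h) :
    AI n (a - b) (g - h) := by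
  have e := ai_mul (ai_C (-1 : L)) hh
  rw [zero_add] at e
  have e2 := ai_add hg e
  have i1 : a + -1 * b = a - b := by ring
  have i2 : g + RatFunc.C (-1) * h = g - h := by
    rw [map_neg, map_one]
    ring
  rwa [i1, i2] at e2

private theorem ai_ne {n : ℕ} {a : L} {g : RatFunc L} (ha : a ≠ 0) (hg : AI n a g) : g ≠ 0 := by
  rintro rfl
  obtain ⟨P, Q, q1, q2, q3, q4⟩ := hg
  rw [zero_mul] at q2
  have : P = 0 := (map_eq_zero_iff _ (RatFunc.algebraMap_injective L)).1 q2.symm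
  rw [this, coeff_zero] at q4
  exact ha q4.symm

private theorem ai_div {n m : ℕ} {a b : L} {g h : RatFunc L} (hb : b ≠ 0) (hg : AI (n + m) a g)
    (hh : AI m b h) : AI n (a / b) (g / h) := by
  have h0 := ai_ne hb hh
  obtain ⟨P, Q, q1, q2, q3, q4⟩ := hg
  obtain ⟨R, S, s1, s2, s3, s4⟩ := hh
  have dR : R.natDegree = S.natDegree + m := by
    apply le_antisymm s3
    apply le_natDegree_of_ne_zero
    rw [s4]
    exact hb
  have lR : R.leadingCoeff = b := by
    rw [leadingCoeff, dR, s4]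
  have mR : (C b⁻¹ * R).Monic := by
    unfold Monic
    rw [leadingCoeff_mul, leadingCoeff_C, lR, inv_mul_cancel₀ hb]
  have hb' : (b⁻¹ : L) ≠ 0 := inv_ne_zero hb
  have d : (Q * (C b⁻¹ * R)).natDegree = Q.natDegree + (S.natDegree + m) := by
    rw [q1.natDegree_mul mR, natDegree_C_mul hb', dR]
  have e1 : (P * S).natDegree ≤ (Q.natDegree + (n + m)) + S.natDegree :=
    (natDegree_mul_le).trans (Nat.add_le_add_right q3 _)
  refine ⟨C b⁻¹ * (P * S), Q * (C b⁻¹ * R), q1.mul mR, ?_, ?_, ?_⟩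
  · rw [map_mul, map_mul, map_mul, map_mul, ← q2, ← s2]
    have hS := am_ne s1
    field_simp
  · rw [d]
    refine (natDegree_C_mul_le _ _).trans ?_
    omega
  · have i1 : Q.natDegree + (S.natDegree + m) + n = Q.natDegree + (n + m) + S.natDegree := by omega
    rw [d, i1, coeff_C_mul, coeff_mul_add_eq_of_natDegree_le q3 le_rfl, q4, s1.coeff_natDegree, mul_one,
      div_eq_mul_inv, mul_comm]

/-- a nonzero coefficient: the degree and the leading coefficient -/
private theorem ai_deg [CharZero L] (h4 : StTOP) {n : ℕ} {a : L} {g : RatFunc L} (ha : a ≠ 0)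
    (hg : AI n a g) : RatFunc.intDegree g = n := by
  have h0 := ai_ne ha hg
  obtain ⟨P, Q, q1, q2, q3, q4⟩ := hg
  have dP : P.natDegree = Q.natDegree + n := by
    apply le_antisymm q3
    apply le_natDegree_of_ne_zero
    rw [q4]
    exact ha
  have := (((h4 L).1 g _ h0 (am_ne q1))).1
  rw [q2, RatFunc.intDegree_polynomial, RatFunc.intDegree_polynomial, dP] at this
  push_cast at this
  linarith

private theorem ai_of {n : ℕ} {g : RatFunc L} (h : RatFunc.intDegree g = n) :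
    AI n g.num.leadingCoeff g := by
  have e : (g.num.natDegree : ℤ) = g.denom.natDegree + n := by
    have := h
    unfold RatFunc.intDegree at this
    linarith
  have e' : g.num.natDegree = g.denom.natDegree + n := by
    exact_mod_cast e
  refine ⟨g.num, g.denom, RatFunc.monic_denom g, ?_, e'.le, ?_⟩
  · have h1 := RatFunc.num_div_denom g
    have h2 := am_ne (RatFunc.monic_denom g)
    nth_rewrite 1 [← h1]
    exact div_mul_cancel₀ _ h2
  · rw [← e']
    rfl

/-- a derivation over the zero derivation, on polynomials -/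
private theorem dt_pol {Dt : Derivation ℤ (RatFunc L) (RatFunc L)} (hD : Over 0 1 Dt) (P : L[X]) :
    Dt (algebraMap L[X] (RatFunc L) P) = algebraMap L[X] (RatFunc L) (derivative P) := by
  have hC : ∀ a : L, Dt (RatFunc.C a) = 0 := by
    intro a
    rw [hD.1, Derivation.coe_zero, Pi.zero_apply, map_zero]
  induction P using Polynomial.induction_on' with
  | add p q hp hq => rw [map_add, map_add, hp, hq, derivative_add, map_add]
  | monomial n a =>
    have e1 : algebraMap L[X] (RatFunc L) (C a * X ^ n) = RatFunc.C a * RatFunc.X ^ n := by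
      rw [map_mul, map_pow, RatFunc.algebraMap_C, RatFunc.algebraMap_X]
    have e2 : algebraMap L[X] (RatFunc L) (C (a * n) * X ^ (n - 1)) =
        RatFunc.C a * (n : RatFunc L) * RatFunc.X ^ (n - 1) := by
      rw [map_mul, map_pow, RatFunc.algebraMap_C, RatFunc.algebraMap_X, map_mul, map_natCast]
    rw [← C_mul_X_pow_eq_monomial, derivative_C_mul_X_pow, e1, e2, Derivation.leibniz, hC,
      smul_zero, add_zero, smul_eq_mul, Derivation.leibniz_pow, hD.2]
    rw [smul_eq_mul, mul_one, nsmul_eq_mul]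
    ring

/-- the derivative of a function of degree one -/
private theorem ai_dt {Dt : Derivation ℤ (RatFunc L) (RatFunc L)} (hD : Over 0 1 Dt) {a : L}
    {g : RatFunc L} (hg : AI 1 a g) : AI 0 a (Dt g) := by
  obtain ⟨P, Q, q1, q2, q3, q4⟩ := hg
  have dQ : (Q * Q).natDegree = Q.natDegree + Q.natDegree := q1.natDegree_mul q1
  have hQ := am_ne q1
  have e1 : (derivative P).natDegree ≤ Q.natDegree := by
    refine (natDegree_derivative_le P).trans ?_
    omega
  have c1 : (derivative P * Q).coeff (Q.natDegree + Q.natDegree) = a * (Q.natDegree + 1) := by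
    rw [coeff_mul_add_eq_of_natDegree_le e1 le_rfl, q1.coeff_natDegree, mul_one, coeff_derivative, q4]
  have c2 : (P * derivative Q).natDegree ≤ Q.natDegree + Q.natDegree ∧
      (P * derivative Q).coeff (Q.natDegree + Q.natDegree) = a * Q.natDegree := by
    rcases Nat.eq_zero_or_pos Q.natDegree with h | h
    · have : derivative Q = 0 := by
        rw [eq_C_of_natDegree_eq_zero h, derivative_C]
      rw [this, mul_zero, coeff_zero, h, Nat.cast_zero, mul_zero, natDegree_zero]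
      exact ⟨le_rfl, rfl⟩
    · obtain ⟨k, hk⟩ := Nat.exists_eq_succ_of_ne_zero h.ne'
      have e2 : (derivative Q).natDegree ≤ k := by
        refine (natDegree_derivative_le Q).trans ?_
        omega
      have i1 : Q.natDegree + Q.natDegree = (Q.natDegree + 1) + k := by omega
      refine ⟨?_, ?_⟩
      · refine (natDegree_mul_le).trans ?_
        omega
      · have hk1 : (derivative Q).coeff k = Q.natDegree := by
          rw [coeff_derivative]
          have : k + 1 = Q.natDegree := hk.symm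
          rw [this, q1.coeff_natDegree, one_mul, ← this]
          push_cast
          ring
        rw [i1, coeff_mul_add_eq_of_natDegree_le q3 e2, q4, hk1]
  refine ⟨derivative P * Q - P * derivative Q, Q * Q, q1.mul q1, ?_, ?_, ?_⟩
  · have h1 : Dt (g * algebraMap L[X] (RatFunc L) Q) = Dt (algebraMap L[X] (RatFunc L) P) := by
      rw [q2]
    rw [Derivation.leibniz, dt_pol hD, dt_pol hD, smul_eq_mul, smul_eq_mul] at h1
    rw [map_sub, map_mul, map_mul, map_mul, ← h1, ← q2]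
    ring
  · rw [add_zero, dQ]
    refine (natDegree_sub_le _ _).trans (max_le ?_ c2.1)
    refine (natDegree_mul_le).trans ?_
    omega
  · rw [add_zero, dQ, coeff_sub, c1, c2.2]
    ring

end

theorem pGMQ (h1 : StGMN) (h2 : StADF) (h3 : StPOL) (h4 : StTOP) (h5 : StDER) : StGMQ := by
  intro L _ _ _ d Dt j κ w hD hj hκ hw hr
  have hκ2 : κ ^ 2 ≠ 0 := pow_ne_zero 2 hκ
  have hN := h1 L d Dt j (κ ^ 2) w hD hj hκ2 hw hr
  by_cases hone : κ ^ 2 = 1
  · rcases mul_self_eq_one_iff.1 ((pow_two κ).symm.trans hone) with h | h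
    · exact ⟨1, by rw [h, Int.cast_one]⟩
    · exact ⟨-1, by rw [h, Int.cast_neg, Int.cast_one]⟩
  have hp1 : κ + 1 ≠ 0 := by
    intro h
    apply hone
    have : κ = -1 := by linear_combination h
    rw [this]
    norm_num
  have hm1 : κ - 1 ≠ 0 := by
    intro h
    apply hone
    have : κ = 1 := by linear_combination h
    rw [this]
    norm_num
  obtain ⟨t1, t2, -, t4, -⟩ := h4 L
  have hf0 : wei j j (RatFunc.X : RatFunc L) ≠ 0 := (t4 j j).1
  have hnc : ¬ Cst w := by
    rintro ⟨a, ha⟩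
    rw [ha, (t2 a).1] at hw
    exact lt_irrefl _ hw
  have hdw : Dt w ≠ 0 := by
    intro h
    exact hnc (((h5 L).2.2.2 Dt hD w).1 h)
  have hwX : w ≠ RatFunc.X := by
    intro h
    rw [h, hD.2, one_pow, one_mul] at hr
    have h1 : RatFunc.C (κ ^ 2) = (1 : RatFunc L) := by
      have h2 : (RatFunc.C (κ ^ 2) - 1) * wei j j (RatFunc.X : RatFunc L) = 0 := by
        linear_combination -hr
      rcases mul_eq_zero.1 h2 with h3 | h3
      · exact sub_eq_zero.1 h3
      · exact absurd h3 hf0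
    apply hone
    have h2 : RatFunc.C (κ ^ 2) = (RatFunc.C 1 : RatFunc L) := by
      rw [h1, map_one]
    exact (RatFunc.C : L →+* RatFunc L).injective h2
  obtain ⟨-, -, p3⟩ := h3 L Dt j (κ ^ 2) w hD hκ2 hnc hr
  obtain ⟨dw, lw⟩ := p3 hw
  have dw' : RatFunc.intDegree w = ((1 : ℕ) : ℤ) := by
    rw [dw]
    norm_num
  have a1 : AI 1 ((κ ^ 2)⁻¹) w := by
    have := ai_of dw'
    rwa [lw] at this
  have a2 : AI 0 ((κ ^ 2)⁻¹) (Dt w) := ai_dt hD a1
  have a3 : AI 0 ((κ ^ 2)⁻¹ * κ⁻¹ - 1) (Dt w / RatFunc.C κ - 1) := by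
    have h := ai_sub (ai_mul a2 (ai_C κ⁻¹)) (ai_C (1 : L))
    rwa [map_inv₀, ← div_eq_mul_inv (Dt w), map_one] at h
  have a4 : AI 1 ((κ ^ 2)⁻¹ - 1) (w - RatFunc.X) := ai_sub a1 ai_X
  have b4 : (κ ^ 2)⁻¹ - 1 ≠ 0 := by
    intro h
    apply hone
    have : (κ ^ 2)⁻¹ = 1 := by linear_combination h
    exact inv_eq_one.1 this
  have a5 : AI 3 (1 : L) (wei j j RatFunc.X) := by
    have dd := (t4 j j).2.1
    have ll := (t4 j j).2.2
    have dd' : RatFunc.intDegree (wei j j (RatFunc.X : RatFunc L)) = ((3 : ℕ) : ℤ) := dd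
    have := ai_of dd'
    have ll' : (wei j j (RatFunc.X : RatFunc L)).num.leadingCoeff = 1 := ll
    rwa [ll'] at this
  have a56 : AI (1 + 2) (1 * (((κ ^ 2)⁻¹ * κ⁻¹ - 1) * ((κ ^ 2)⁻¹ * κ⁻¹ - 1)))
      (wei j j RatFunc.X * ((Dt w / RatFunc.C κ - 1) * (Dt w / RatFunc.C κ - 1))) :=
    ai_mul (n := 3) (m := 0) a5 (ai_mul (n := 0) (m := 0) a3 a3)
  have a44 : AI 2 (((κ ^ 2)⁻¹ - 1) * ((κ ^ 2)⁻¹ - 1)) ((w - RatFunc.X) * (w - RatFunc.X)) :=
    ai_mul (n := 1) (m := 1) a4 a4
  have a6 : AI 1 (1 * (((κ ^ 2)⁻¹ * κ⁻¹ - 1) * ((κ ^ 2)⁻¹ * κ⁻¹ - 1)) /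
      (((κ ^ 2)⁻¹ - 1) * ((κ ^ 2)⁻¹ - 1)))
      (wei j j RatFunc.X * ((Dt w / RatFunc.C κ - 1) * (Dt w / RatFunc.C κ - 1)) /
        ((w - RatFunc.X) * (w - RatFunc.X))) :=
    ai_div (n := 1) (m := 2) (mul_ne_zero b4 b4) a56 a44
  have a7 := ai_sub (ai_sub a6 a1) ai_X
  obtain ⟨W, hW⟩ : ∃ W, W = wei j j RatFunc.X *
      ((Dt w / RatFunc.C κ - 1) / (w - RatFunc.X)) ^ 2 - w - RatFunc.X := ⟨_, rfl⟩
  have hrW := h2 L Dt j κ w W hD hκ hwX hdw hr hW
  have hwX' : w - RatFunc.X ≠ 0 := sub_ne_zero.2 hwX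
  have a8 : AI 1 (1 / (κ + 1) ^ 2) W := by
    have e1 : W = wei j j RatFunc.X * ((Dt w / RatFunc.C κ - 1) * (Dt w / RatFunc.C κ - 1)) /
        ((w - RatFunc.X) * (w - RatFunc.X)) - w - RatFunc.X := by
      rw [hW, div_pow, pow_two, pow_two, mul_div_assoc (wei j j RatFunc.X)]
    have e2 : (1 : L) / (κ + 1) ^ 2 = 1 * (((κ ^ 2)⁻¹ * κ⁻¹ - 1) * ((κ ^ 2)⁻¹ * κ⁻¹ - 1)) /
      (((κ ^ 2)⁻¹ - 1) * ((κ ^ 2)⁻¹ - 1)) - (κ ^ 2)⁻¹ - 1 := by
      have e3 : (κ ^ 2)⁻¹ - 1 = -((κ - 1) * (κ + 1)) / κ ^ 2 := by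
        field_simp
        ring
      have e4 : (κ ^ 2)⁻¹ * κ⁻¹ - 1 = -((κ - 1) * (κ ^ 2 + κ + 1)) / κ ^ 3 := by
        field_simp
        ring
      rw [e3, e4]
      field_simp
      ring
    rw [e1, e2]
    exact a7
  have hq : (1 : L) / (κ + 1) ^ 2 ≠ 0 := one_div_ne_zero (pow_ne_zero 2 hp1)
  have dW := ai_deg h4 hq a8
  have dW0 : 0 < RatFunc.intDegree W := by
    rw [dW]
    norm_num
  have hM := h1 L d Dt j ((κ + 1) ^ 2) W hD hj (pow_ne_zero 2 hp1) dW0 hrW
  obtain ⟨m, hm⟩ : ∃ m : ℤ, m = (dg W : ℤ) - (dg w : ℤ) - 1 := ⟨_, rfl⟩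
  have hmL : (m : L) = 2 * κ := by
    rw [hm]
    push_cast
    rw [← hM, ← hN]
    ring
  have hm2 : m ^ 2 = 4 * (dg w : ℤ) := by
    have : ((m ^ 2 : ℤ) : L) = ((4 * (dg w : ℤ) : ℤ) : L) := by
      push_cast
      rw [hmL, ← hN]
      ring
    exact_mod_cast this
  have hev : Even m := by
    have : Even (m ^ 2) := by
      rw [hm2]
      exact ⟨2 * (dg w : ℤ), by ring⟩
    exact (Int.even_pow.1 this).1
  obtain ⟨n, hn⟩ := hev
  refine ⟨n, ?_⟩
  rw [hn] at hmL
  push_cast at hmL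
  have h2L : (2 : L) ≠ 0 := two_ne_zero
  have : 2 * (κ - n) = 0 := by linear_combination -hmL
  rcases mul_eq_zero.1 this with h | h
  · exact absurd h h2L
  · exact sub_eq_zero.1 h

end Pool.Agent.Helper64.RK
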