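import Mathlib
import Pool.Agent.Helper43.RK.St

/-!
# Project RK, module RF
-/

set_option autoImplicit false

namespace Pool.Agent.Helper64.RK

open Pool.Agent.Helper43.RK

/-- the key computation: the index data determine the element up to a central element -/
theorem key {R : Type} [CommRing R] {G : Type} [Group G] (D : Dt R G) (r1 r2 r3 : R) (l l' : G)
    (F1 F2 : R → R) (h1 : ∀ r, l⁻¹ * D.a r * l = D.a (F1 r)) (h2 : ∀ r, l⁻¹ * D.b r * l = D.b (F2 r))
    (h1' : ∀ r, l'⁻¹ * D.a r * l' = D.a (F1 r)) (h2' : ∀ r, l'⁻¹ * D.b r * l' = D.b (F2 r))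
    (g g' : G) (hg : g = D.a r1 * l * D.b r2 * D.a r3) (hg' : g' = D.a r1 * l' * D.b r2 * D.a r3)
    (hgG : g ∈ D.G0) : ∀ x ∈ D.G0, (g⁻¹ * g') * x = x * (g⁻¹ * g') := by
  have ka : ∀ r, (l' * l⁻¹) * D.a r = D.a r * (l' * l⁻¹) := by
    intro r
    have h : l⁻¹ * D.a r * l = l'⁻¹ * D.a r * l' := by rw [h1, h1']
    calc (l' * l⁻¹) * D.a r = l' * (l⁻¹ * D.a r * l) * l⁻¹ := by group
      _ = l' * (l'⁻¹ * D.a r * l') * l⁻¹ := by rw [h]
      _ = D.a r * (l' * l⁻¹) := by group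
  have kb : ∀ r, (l' * l⁻¹) * D.b r = D.b r * (l' * l⁻¹) := by
    intro r
    have h : l⁻¹ * D.b r * l = l'⁻¹ * D.b r * l' := by rw [h2, h2']
    calc (l' * l⁻¹) * D.b r = l' * (l⁻¹ * D.b r * l) * l⁻¹ := by group
      _ = l' * (l'⁻¹ * D.b r * l') * l⁻¹ := by rw [h]
      _ = D.b r * (l' * l⁻¹) := by group
  have kc : ∀ x ∈ D.G0, (l' * l⁻¹) * x = x * (l' * l⁻¹) := by
    have hle : D.G0 ≤ Subgroup.centralizer {l' * l⁻¹} := by
      refine (Subgroup.closure_le _).2 ?_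
      rintro x (⟨r, rfl⟩ | ⟨r, rfl⟩)
      · exact Subgroup.mem_centralizer_singleton_iff.2 (ka r).symm
      · exact Subgroup.mem_centralizer_singleton_iff.2 (kb r).symm
    intro x hx
    exact (Subgroup.mem_centralizer_singleton_iff.1 (hle hx)).symm
  have e1 : g' = (l' * l⁻¹) * g := by
    calc g' = (D.a r1 * (l' * l⁻¹)) * l * D.b r2 * D.a r3 := by rw [hg']; group
      _ = ((l' * l⁻¹) * D.a r1) * l * D.b r2 * D.a r3 := by rw [ka]
      _ = (l' * l⁻¹) * g := by rw [hg]; group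
  have e2 : g⁻¹ * g' = l' * l⁻¹ := by
    rw [e1, kc g hgG, ← mul_assoc, inv_mul_cancel, one_mul]
  intro x hx
  rw [e2]
  exact kc x hx

theorem hRF : StRF := by
  intro hRC R _ _ G _ D hM
  have hex : ∀ g : D.G0, ∃ d : R × R × R × (R → R) × (R → R), ∃ l : G,
      (∀ r, l⁻¹ * D.a r * l = D.a (d.2.2.2.1 r)) ∧ (∀ r, l⁻¹ * D.b r * l = D.b (d.2.2.2.2 r)) ∧
      (g : G) = D.a d.1 * l * D.b d.2.1 * D.a d.2.2.1 := by
    intro g
    obtain ⟨r1, r2, r3, l, hl, hg⟩ := hM g g.2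
    choose F1 hF1 using hl.a1
    choose F2 hF2 using hl.b1
    exact ⟨(r1, r2, r3, F1, F2), l, hF1, hF2, hg⟩
  choose φ L hφ1 hφ2 hφ3 using hex
  have hkey : ∀ g g' : D.G0, φ g = φ g' → g⁻¹ * g' ∈ Subgroup.center D.G0 := by
    intro g g' h
    rw [Subgroup.mem_center_iff]
    intro x
    apply Subtype.ext
    have e1 := hφ1 g'
    have e2 := hφ2 g'
    have e3 := hφ3 g'
    rw [← h] at e1 e2 e3
    have := key D (φ g).1 (φ g).2.1 (φ g).2.2.1 (L g) (L g') (φ g).2.2.2.1 (φ g).2.2.2.2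
      (hφ1 g) (hφ2 g) e1 e2 (g : G) (g' : G) (hφ3 g) e3 g.2 x x.2
    simpa using this.symm
  have hfin : Finite (D.G0 ⧸ Subgroup.center D.G0) := by
    refine Finite.of_injective (fun q : D.G0 ⧸ Subgroup.center D.G0 => φ (Quotient.out q)) ?_
    intro q q' h
    have h2 := hkey _ _ h
    have h3 : (QuotientGroup.mk (Quotient.out q) : D.G0 ⧸ Subgroup.center D.G0) =
        QuotientGroup.mk (Quotient.out q') := QuotientGroup.eq.2 h2
    rw [QuotientGroup.out_eq', QuotientGroup.out_eq'] at h3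
    exact h3
  have hidx : (Subgroup.center D.G0).FiniteIndex := Subgroup.finiteIndex_of_finite_quotient
  refine hRC D.G0 ((↑) ⁻¹' (Set.range D.a ∪ Set.range D.b)) ?_ ?_ ?_ hidx
  · exact Set.Finite.preimage Subtype.val_injective.injOn
      ((Set.finite_range D.a).union (Set.finite_range D.b))
  · rintro ⟨x, hx⟩ hs
    apply Subtype.ext
    rcases hs with ⟨r, hr⟩ | ⟨r, hr⟩
    · change x * x = 1
      have hr' : D.a r = x := hr
      rw [← hr', D.aa]
    · change x * x = 1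
      have hr' : D.b r = x := hr
      rw [← hr', D.bb]
  · exact Subgroup.closure_closure_coe_preimage

end Pool.Agent.Helper64.RK
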